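import Pool.Agent.helper37.NA.Spec
import Pool.Agent.helper24.L5.FR5
import Pool.Agent.helper59.FI.Base

/-!
# na:NFR: Fong-Reynolds
-/

set_option autoImplicit false

namespace Pool.Agent.NAB

open Pool.Agent.helper58.DC Pool.Agent.DI Pool.Agent.GR Pool.Agent.OB Pool.Agent.DR Pool.Agent.FI Pool.Agent.FI3 Pool.Agent.FI4 Pool.Agent.FI4I Pool.Agent.LE Pool.Agent.L5

theorem NFR (hNFI : NFI_stmt) (hNFB : NFB_stmt) (hFRD5 : FRD5_stmt) (hFRE5 : FRE5_stmt) (hQRS : QRS_stmt) (hEVM : EVM_stmt)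
    (hIDM : IDM_stmt) (hQEI : QEI_stmt) (hFBC : FBC_stmt) (hCCI : CCI_stmt) (hCJG : CJG_stmt) (hB2 : B2_stmt) : NFR_stmt := by
  classical
  have _ := hCJG
  intro p M hS G _ _ R₁ hpg hcom hnR θ hθ H hTH
  have := Fintype.ofFinite G
  obtain ⟨hA1, hA2⟩ := hNFI G M R₁ hnR θ hθ
  set K := cz R₁ with hK
  set S := Pool.Agent.FI.TT M R₁ θ with hSdef
  have hKS : K ≤ S := cz_le_TT
  have hSH : S ≤ H := hTH
  have hKH : K ≤ H := hKS.trans hSH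
  set b := Bl M K θ with hb
  set e := eS K b with he
  have hbI : b ⊆ IrrOn K := fun ψ h => h.1
  obtain ⟨hCFK, hcce, hcve, -⟩ := hIDM G K b hbI
  rw [← he] at hCFK hcce hcve
  have hCFS : CF S e := ⟨hA1, fun y hy => hCFK.2 y fun h => hy (hKS h)⟩
  have hne : ∀ (L : Subgroup G), ∀ ψ ∈ IrrOn L, ψ 1 ≠ 0 := by
    intro L ψ h
    obtain ⟨n, hn, e1, -⟩ := ((hB2 G L).2 ψ h).1
    rw [e1]; exact_mod_cast hn.ne'
  have hFK := (hB2 G K).1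
  have hFS := (hB2 G S).1
  -- membership through `ev`
  have hmem : ∀ L : Subgroup G, K ≤ L → ∀ φ ∈ IrrOn L, (ev φ e 1 ≠ 0 ↔ φ ∈ Bl M L θ) := by
    intro L hL φ hφ
    have h1 := hNFB p M hS G R₁ hpg hcom hnR θ hθ L hL φ hφ
    rw [h1]
    have h2 := FR5_ev hQRS L K hL hFK (hne K) e hCFK.2 φ hφ
    have hterm : ∀ ψ ∈ hFK.toFinset, ∃ m : ℕ, Pool.Agent.FI.mt K φ ψ * (cc ψ e * ψ 1) = m := by
      intro ψ hψ
      have hψ' : ψ ∈ IrrOn K := hFK.mem_toFinset.1 hψ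
      obtain ⟨n, hn⟩ := (hQRS G L K hL φ hφ).1 ψ hψ'
      obtain ⟨d, -, hd, -⟩ := ((hB2 G K).2 ψ hψ').1
      rw [hn, hd, hcce ψ hψ']
      by_cases hm : ψ ∈ b
      · exact ⟨n * d, by rw [if_pos hm]; push_cast; ring⟩
      · exact ⟨0, by rw [if_neg hm]; simp⟩
    constructor
    · intro h
      by_contra hno
      push Not at hno
      apply h
      rw [h2]
      refine Finset.sum_eq_zero fun ψ hψ => ?_
      have hψ' : ψ ∈ IrrOn K := hFK.mem_toFinset.1 hψ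
      by_cases hm : ψ ∈ b
      · rw [hno ψ hm, zero_mul]
      · rw [hcce ψ hψ', if_neg hm, zero_mul, mul_zero]
    · rintro ⟨ψ, hψ, hmt⟩ h0
      rw [h2] at h0
      have h3 := FR5_natsum _ _ hterm h0 ψ (hFK.mem_toFinset.2 (hbI hψ))
      rw [hcce ψ (hbI hψ), if_pos hψ, one_mul] at h3
      exact mul_ne_zero hmt (hne K ψ (hbI hψ)) h3
  -- `cc ζ e`
  have hcc : ∀ ζ ∈ IrrOn S, (cc ζ e = 1 ↔ ζ ∈ Bl M S θ) := by
    intro ζ hζ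
    rw [← hmem S hKS ζ hζ]
    have h1 : ev ζ e 1 = cc ζ e * ζ 1 := (hEVM G S ζ hζ e hCFS 1 S.one_mem).2
    have h2 : cc ζ e = cc ζ e * cc ζ e := by
      have := (hCCI G S ζ hζ).2.1 e e hCFS hCFS
      rw [hcve] at this
      exact this
    rw [h1]
    constructor
    · intro h
      rw [h, one_mul]; exact hne S ζ hζ
    · intro h
      have h3 : cc ζ e ≠ 0 := left_ne_zero_of_mul h
      have h4 : cc ζ e * (cc ζ e - 1) = 0 := by linear_combination - h2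
      rcases mul_eq_zero.1 h4 with h5 | h5
      · exact absurd h5 h3
      · linear_combination h5
  have hFRD' : ∀ φ, ∃ ζ : G → ℂ, φ ∈ Bl M H θ → ζ ∈ IrrOn S ∧ cc ζ e = 1 ∧ Pool.Agent.FI.mt S φ ζ = 1 ∧
      (∀ ζ' ∈ IrrOn S, cc ζ' e = 1 → ζ' ≠ ζ → Pool.Agent.FI.mt S φ ζ' = 0) ∧
      ∀ x ∈ H, φ x = (∑ᶠ h ∈ (H : Set G), ζ (h⁻¹ * x * h)) / Nat.card S := by
    intro φ
    by_cases hφ : φ ∈ Bl M H θ
    · obtain ⟨ζ, hζ⟩ := hFRD5 G S H hSH e hCFS hcve (fun h _ hh => hA2 h hh) φ hφ.1 ((hmem H hKH φ hφ.1).2 hφ)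
      exact ⟨ζ, fun _ => hζ⟩
    · exact ⟨0, fun hh => absurd hh hφ⟩
  choose F hF using hFRD'
  have hBC := (hFBC p M hS G S θ 1).1
  have hQ := (hQEI p M hS G S (Bl M S θ) hBC).2.1
  unfold Le
  refine finsum_mem_eq_of_bijOn F ⟨?_, ?_, ?_⟩ ?_
  · intro φ hφ
    obtain ⟨h1, h2, -⟩ := hF φ hφ
    exact (hcc (F φ) h1).1 h2
  · intro φ hφ φ' hφ' heq
    obtain ⟨-, -, -, -, h1⟩ := hF φ hφ
    obtain ⟨-, -, -, -, h2⟩ := hF φ' hφ'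
    funext y
    by_cases hy : y ∈ H
    · rw [h1 y hy, h2 y hy, heq]
    · rw [hφ.1.1 y hy, hφ'.1.1 y hy]
  · intro ζ hζ
    obtain ⟨φ, hφ, hmt⟩ := hFRE5 G S H hSH ζ hζ.1
    obtain ⟨ψ, hψ, hmt2⟩ := (hNFB p M hS G R₁ hpg hcom hnR θ hθ S hKS ζ hζ.1).1 hζ
    have hφB : φ ∈ Bl M H θ := by
      refine (hNFB p M hS G R₁ hpg hcom hnR θ hθ H hKH φ hφ).2 ⟨ψ, hψ, ?_⟩
      intro h0
      rw [FR5_mt hQRS H S K hSH hKS hFS φ hφ ψ] at h0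
      have hterm : ∀ ζ' ∈ hFS.toFinset, ∃ m : ℕ, Pool.Agent.FI.mt S φ ζ' * Pool.Agent.FI.mt K ζ' ψ = m := by
        intro ζ' hζ'
        have hζ'' : ζ' ∈ IrrOn S := hFS.mem_toFinset.1 hζ'
        obtain ⟨n, hn⟩ := (hQRS G H S hSH φ hφ).1 ζ' hζ''
        obtain ⟨n', hn'⟩ := (hQRS G S K hKS ζ' hζ'').1 ψ (hbI hψ)
        exact ⟨n * n', by rw [hn, hn']; push_cast; ring⟩
      exact mul_ne_zero hmt hmt2 (FR5_natsum _ _ hterm h0 ζ (hFS.mem_toFinset.2 hζ.1))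
    refine ⟨φ, hφB, ?_⟩
    obtain ⟨-, -, -, h1, -⟩ := hF φ hφB
    by_contra hne'
    exact hmt (h1 ζ hζ.1 ((hcc ζ hζ.1).2 hζ) (fun hh => hne' hh.symm))
  · intro φ hφ
    obtain ⟨h1, h2, h3, h4, h5⟩ := hF φ hφ
    have hφc : ∀ g, ∀ h ∈ H, φ (h * g * h⁻¹) = φ g := ((hB2 G H).2 φ hφ.1).2.1
    rw [FR5_EE1 p H S hSH φ (F φ) hφc h1.1 h5, FR5_EE2 hQRS p H S hSH hFS φ hφ.1 (F φ)]
    rw [Finset.sum_eq_single (F φ)]
    · rw [h3, one_mul]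
    · intro ζ' hζ' hne'
      have hζ'' : ζ' ∈ IrrOn S := hFS.mem_toFinset.1 hζ'
      by_cases hm : ζ' ∈ Bl M S θ
      · rw [h4 ζ' hζ'' ((hcc ζ' hζ'').2 hm) hne', zero_mul]
      · rw [(hQ (F φ) ((hcc (F φ) h1).1 h2) ζ' hζ'' hm).1, mul_zero]
    · intro hno
      exact absurd (hFS.mem_toFinset.2 h1) hno

end Pool.Agent.NAB
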