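import Pool.Agent.helper37.NA.Spec
import Pool.Agent.helper59.FI.Base

/-!
# na:NUC: a unit class and the defect group
-/

set_option autoImplicit false

namespace Pool.Agent.NAB

open Pool.Agent.helper58.DC Pool.Agent.DI Pool.Agent.GR Pool.Agent.OB Pool.Agent.DR Pool.Agent.FI Pool.Agent.FI3 Pool.Agent.FI4 Pool.Agent.FI4I Pool.Agent.LE Pool.Agent.L5

theorem NUC_pel {G : Type} [Group G] {p : ℕ} {y : G} (l : G) (h : PEl p y) : PEl p (l * y * l⁻¹) := by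
  obtain ⟨k, hk⟩ := h
  exact ⟨k, by rw [conj_pow, hk, mul_one, mul_inv_cancel]⟩

theorem NUC_preg {G : Type} [Group G] {p : ℕ} {v : G} (l : G) (h : PReg p v) : PReg p (l * v * l⁻¹) := by
  unfold PReg at h ⊢
  have h1 : orderOf (l * v * l⁻¹) = orderOf v := by
    have h2 := orderOf_injective (MulAut.conj l).toMonoidHom (MulAut.conj l).injective v
    rw [← h2]
    rfl
  rw [h1]
  exact h

theorem NUC (hNEG : NEG_stmt) (hNCD : NCD_stmt) (hDGL : DGL_stmt) (hSBI : SBI_stmt) (hDCM : DCM_stmt) (hCLS : CLS_stmt)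
    (hVN1 : VN1_stmt) : NUC_stmt := by
  have _ := hCLS
  intro p M hS G _ _ L ψ hψ D x hD y v hy hv hyv hL hne
  refine ⟨hD.min _ hL hne, ?_⟩
  obtain ⟨θ, hθ, hSB⟩ := hDGL p M hS G L ψ hψ D x hD
  have hne2 : ¬ InM M (cc θ (cls L (y * v))) := fun h => hne (((hSBI p M hS G L θ ψ hSB).2 _ hL).1 h)
  obtain ⟨w₀, hw₀⟩ := hNCD p M hS G L ψ hψ D x hD θ hθ hSB
  -- a class of `H`
  obtain ⟨w, hw1, hw2⟩ : ∃ w : G, ¬ InM M (cls L (y * v) w) ∧ ¬ InM M (cc θ (cls (L ⊓ cz D) w)) := by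
    by_contra hcon
    push Not at hcon
    apply hne2
    refine (((hDCM G (L ⊓ cz D) M p hS).1 θ (cls L (y * v)) (fun l hl x => cls_inv hl.1 _ x)
      (fun x => IntAt.of_isIntegral hS (cls_int L _ x)) (fun x => IntAt.of_isIntegral hS (cc_cls_int le_rfl hθ x))).2 ?_)
    intro x
    by_cases h : InM M (cls L (y * v) x)
    · exact Or.inl h
    · exact Or.inr (hcon x h)
  have hw3 : cls L (y * v) w ≠ 0 := fun h => hw1 (by rw [h]; exact InM.zero hS)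
  obtain ⟨l, hl, hlw⟩ := cls_ne hw3
  have hwe : w = (l * y * l⁻¹) * (l * v * l⁻¹) := by
    rw [← hlw]
    group
  have hcom : (l * y * l⁻¹) * (l * v * l⁻¹) = (l * v * l⁻¹) * (l * y * l⁻¹) := by
    have h1 : (l * y * l⁻¹) * (l * v * l⁻¹) = l * (y * v) * l⁻¹ := by group
    have h2 : (l * v * l⁻¹) * (l * y * l⁻¹) = l * (v * y) * l⁻¹ := by group
    rw [h1, h2, hyv]
  have hpe := NUC_pel l hy
  have hre := NUC_preg l hv
  -- `w ∈ H`
  have hcl0 : ∀ ψ' : G → ℂ, (∀ x, cls (L ⊓ cz D) w x ≠ 0 → ψ' x = 0) → cc ψ' (cls (L ⊓ cz D) w) = 0 := by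
    intro ψ' h
    unfold cc
    have h1 : ∀ x, cls (L ⊓ cz D) w x * ψ' x = 0 := by
      intro x
      by_cases hx : cls (L ⊓ cz D) w x = 0
      · rw [hx, zero_mul]
      · rw [h x hx, mul_zero]
    rw [finsum_congr h1, finsum_zero, zero_div]
  have hwH : w ∈ L ⊓ cz D := by
    by_contra hwH
    apply hw2
    rw [hcl0 θ (fun x hx => ?_)]
    · exact InM.zero hS
    · obtain ⟨h, hh, hhw⟩ := cls_ne hx
      refine IrrOn_zero hθ fun hx' => hwH ?_
      have h1 : w = h⁻¹ * x * h := by rw [← hhw]; group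
      rw [h1]
      exact Subgroup.mul_mem _ (Subgroup.mul_mem _ (Subgroup.inv_mem _ hh) hx') hh
  have hmem := ((hNEG p 1 hS.pr G (l * y * l⁻¹)).2.2.2.1 (l * v * l⁻¹) hpe hre hcom (L ⊓ cz D)).2.2.2 (by rw [← hwe]; exact hwH)
  have hin : l * y * l⁻¹ ∈ D ⊓ cz D := by
    by_contra hnot
    apply hw2
    have hθw : θ w = 0 := by
      rw [hwe]
      refine hVN1 p M hS G (L ⊓ cz D) (D ⊓ cz D) w₀ (inf_le_right.trans (cz_mono inf_le_left)) θ hθ hw₀ θ ⟨hθ, SB.refl _ _⟩ (l * y * l⁻¹)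
        hmem.1 hpe hnot (l * v * l⁻¹) ?_ hre
      rw [mem_Cz]
      exact ⟨hmem.2, hcom⟩
    rw [hcl0 θ (fun x hx => ?_)]
    · exact InM.zero hS
    · obtain ⟨h, hh, hhw⟩ := cls_ne hx
      rw [← hhw, IrrOn_conj hθ hh, hθw]
  refine ⟨l, hl, hin.1, fun d hd => ?_⟩
  exact ((Subgroup.mem_centralizer_iff.1 hin.2) d hd).symm

end Pool.Agent.NAB
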