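import Pool.Agent.helper37.NA.Spec
import Pool.Agent.helper58.FI.DefsC

/-!
# na:NUE: two unit classes of the same block have conjugate groups `E`
-/

set_option autoImplicit false

namespace Pool.Agent.NAB

open Pool.Agent.helper58.DC Pool.Agent.DI Pool.Agent.GR Pool.Agent.OB Pool.Agent.DR Pool.Agent.FI Pool.Agent.FI3 Pool.Agent.FI4 Pool.Agent.FI4I Pool.Agent.LE Pool.Agent.L5

theorem NUE_ord {G : Type} [Group G] (l z : G) : orderOf (l * z * l⁻¹) = orderOf z := by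
  have h2 := orderOf_injective (MulAut.conj l).toMonoidHom (MulAut.conj l).injective z
  rw [← h2]
  rfl

theorem NUE_mul {G : Type} [Group G] (g h : G) (P : Subgroup G) : cjS g (cjS h P) = cjS (g * h) P := by
  ext x
  rw [mem_cjS, mem_cjS, mem_cjS]
  have h1 : h⁻¹ * (g⁻¹ * x * g) * h = (g * h)⁻¹ * x * (g * h) := by group
  rw [h1]

theorem NUE (hNEG : NEG_stmt) (hNEC : NEC_stmt) (hNUD : NUD_stmt) (hDEX : DEX_stmt) : NUE_stmt := by
  intro p e m M hS hme G _ _ K η hη z x z' x' h h'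
  obtain ⟨D, y, hD, _⟩ := hDEX p M hS G K η hη
  obtain ⟨hc, k, hk, hkD, hkc⟩ := (hNUD p e m M hS G K η hη z x h).1 D y hD
  obtain ⟨_, k', hk', hkD', hkc'⟩ := (hNUD p e m M hS G K η hη z' x' h').1 D y hD
  have h1 := (hNEC p e m hS.pr hme G D hD.pg hc (k * z * k⁻¹) hkD hkc (by rw [NUE_ord, h.od])).1 (k' * z' * k'⁻¹) hkD'
    (by rw [NUE_ord, h'.od])
  have h2 := (hNEG p e hS.pr G z).1 k
  have h3 := (hNEG p e hS.pr G (k' * z' * k'⁻¹)).1 k'⁻¹
  have h4 : k'⁻¹ * (k' * z' * k'⁻¹) * k'⁻¹⁻¹ = z' := by group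
  rw [h4, h1, h2, NUE_mul] at h3
  exact ⟨k'⁻¹ * k, K.mul_mem (K.inv_mem hk') hk, h3⟩

end Pool.Agent.NAB
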